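import Pool.Agent.AKR.Final

/-!
# Agrawal's conjecture holds for almost all `n`, for every `r` at once

The statement is the frozen one of Q1 (`S` of `MP_2867b3_nt`), with `n` outside an exceptional set with at most
`x exp (- (1 / 10) √(log x log log x))` elements up to `x`.
-/

set_option autoImplicit false

namespace Pool.Agent.Results.MP_2867b3_nt.AlmostAllIntegers

/-- For large `x`: a set `S` of positive integers `n ≤ x`, each of which is a counterexample to Agrawal's
conjecture for some `r` (`n` prime to `r`, `(X - 1) ^ n ≡ X ^ n - 1` modulo `(n, X ^ r - 1)`, `n` not prime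
and `n ^ 2 ≢ 1` modulo `r`; `r` may depend on `n` and has no bound), has at most
`x exp (- (1 / 10) √(log x log log x))` elements. -/
theorem result : ∃ x₀ : ℝ, ∀ x : ℝ, x₀ ≤ x → ∀ S : Finset ℕ,
    (∀ n ∈ S, 0 < n ∧ (n : ℝ) ≤ x ∧ ∃ r : ℕ, 0 < r ∧ n.Coprime r ∧
      ((Polynomial.X ^ r - 1 : Polynomial (ZMod n)) ∣
        (Polynomial.X - 1) ^ n - (Polynomial.X ^ n - 1)) ∧
      ¬ (n.Prime ∨ Nat.ModEq r (n ^ 2) 1)) →
    (S.card : ℝ) ≤ x * Real.exp (-(1 / 10) * Real.sqrt (Real.log x * Real.log (Real.log x))) :=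
  AKR.final

end Pool.Agent.Results.MP_2867b3_nt.AlmostAllIntegers
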