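import Pool.Agent.AGQ.Fin

/-!
# Agrawal's congruence fails for almost all `r`, for every large composite `n`

The congruence `(X - 1) ^ n ≡ X ^ n - 1` modulo `(n, X ^ r - 1)` is written as in the frozen statement of Q1.
-/

set_option autoImplicit false

namespace Pool.Agent.Results.MP_2867b3_nt.AlmostAllModuli

/-- Let `ε > 0`. There is `c > 0` such that for every large composite `n` and every integer
`x ≥ exp ((log n) ^ ε)` at most `x / (log n) ^ c` positive integers `r ≤ x` coprime to `n` satisfy the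
congruence. -/
theorem result : ∀ ε : ℝ, 0 < ε → ∃ c : ℝ, 0 < c ∧ ∃ n₀ : ℕ, ∀ n : ℕ, n₀ ≤ n → ¬ n.Prime →
    ∀ x : ℕ, Real.exp ((Real.log n) ^ ε) ≤ x →
    ∀ S : Finset ℕ, (∀ r ∈ S, 0 < r ∧ r ≤ x ∧ n.Coprime r ∧
      ((Polynomial.X ^ r - 1 : Polynomial (ZMod n)) ∣
        (Polynomial.X - 1) ^ n - (Polynomial.X ^ n - 1))) →
    (S.card : ℝ) ≤ x / (Real.log n) ^ c :=
  fun _ hε => AGQ.mainB hε

end Pool.Agent.Results.MP_2867b3_nt.AlmostAllModuli
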