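import Pool.Agent.AGQ.Fin

/-!
# Agrawal's congruence fails for all multiples of a small modulus

The congruence `(X - 1) ^ n ≡ X ^ n - 1` modulo `(n, X ^ r - 1)` is written as in the frozen statement of Q1.
-/

set_option autoImplicit false

namespace Pool.Agent.Results.MP_2867b3_nt.DetectingModuli

/-- Let `ε > 0`. For every large composite `n` without prime factors up to `(log n) ^ (5 + ε)` there is
`M ≤ (log n) ^ (7 + ε)`, coprime to `n`, such that the congruence fails for every multiple `r` of `M`. -/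
theorem result : ∀ ε : ℝ, 0 < ε → ∃ n₀ : ℕ, ∀ n : ℕ, n₀ ≤ n → ¬ n.Prime →
    (∀ q : ℕ, q.Prime → q ∣ n → (Real.log n) ^ (5 + ε) < q) →
    ∃ M : ℕ, 0 < M ∧ n.Coprime M ∧ (M : ℝ) ≤ (Real.log n) ^ (7 + ε) ∧
      ∀ r : ℕ, M ∣ r → ¬ ((Polynomial.X ^ r - 1 : Polynomial (ZMod n)) ∣
        (Polynomial.X - 1) ^ n - (Polynomial.X ^ n - 1)) :=
  fun _ hε => AGQ.mainA hε

end Pool.Agent.Results.MP_2867b3_nt.DetectingModuli
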