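import Pool.Agent.Helper49.Agr.Global

/-!
# Agrawal's conjecture for all `r ≥ √(8 n / p)`, `p` the least prime factor of `n`

In particular it holds for all `n` and all `r` with `r ^ 2 ≥ 4 * n`.
-/

set_option autoImplicit false

namespace Pool.Agent.Results.MP_2867b3_nt.SquareRootRange

/-- Let `n, r` be coprime positive integers such that `(X - 1) ^ n ≡ X ^ n - 1` modulo
`(n, X ^ r - 1)`, and suppose that `8 n ≤ p r²` for the least prime factor `p` of `n` (which is the case
if `r² ≥ 4 n` and `n ≥ 2`).  Then `n` is prime or `n² ≡ 1` modulo `r`. -/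
theorem result :
    ∀ n r : ℕ, 0 < n → 0 < r → Nat.Coprime n r →
      ((Polynomial.X ^ r - 1 : Polynomial (ZMod n)) ∣
          (Polynomial.X - 1) ^ n - (Polynomial.X ^ n - 1)) →
      8 * n ≤ n.minFac * r ^ 2 →
      n.Prime ∨ Nat.ModEq r (n ^ 2) 1 :=
  fun _ _ hn hr hcop h h8 => Pool.Agent.Helper49.Agr.range_thm hn hr hcop h h8

end Pool.Agent.Results.MP_2867b3_nt.SquareRootRange
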